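import Pool.Agent.P.MP_e5c6eb_gt.Topo
import Pool.Agent.P.MP_e5c6eb_gt.Ball

namespace Pool.Agent.Results.MP_e5c6eb_gt.Counterexample

open Pool.Agent.Lib.Kahler Pool.Agent.P.MP_e5c6eb_gt

theorem result (n : ℕ) (hn : 2 ≤ n) :
    ∃ (X : Set (Fin n → ℂ)) (g : (Fin n → ℂ) → Matrix (Fin n) (Fin n) ℂ),
      IsOpen X ∧ IsConnected X ∧ ¬ IsCompact X ∧ IsKahler X g ∧ IsCompleteMetric X g ∧
      (∃ K ⊆ X, IsCompact K ∧ ∃ p ∈ X \ K, ∃ q ∈ X \ K,
        connectedComponentIn (X \ K) p ≠ connectedComponentIn (X \ K) q ∧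
        (∀ R : NNReal, ∃ x ∈ connectedComponentIn (X \ K) p,
          ∃ y ∈ connectedComponentIn (X \ K) p, (R : ENNReal) < rdist X g x y) ∧
        (∀ R : NNReal, ∃ x ∈ connectedComponentIn (X \ K) q,
          ∃ y ∈ connectedComponentIn (X \ K) q, (R : ENNReal) < rdist X g x y)) ∧
      (∀ z ∈ X, ∀ v : Fin n → ℂ, -2 * ((n : ℝ) + 1) * normSq g z v ≤ ricci g z v) ∧
      lambda0 X g = (n : ℝ) ^ 2 ∧
      ¬ ∃ π : {z : Fin n → ℂ | ∑ j, ‖z j‖ ^ 2 < 1} → X, IsCoveringMap π :=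
  ⟨XB n, gB, isOpen_XB, isConnected_XB (by omega), not_isCompact_XB (by omega), isKahler_gB,
    complete_gB, two_ends (by omega), fun _ hz v => ricci_gB hz v, lambda0_gB (by omega),
    fun ⟨π, hπ⟩ => no_cover hn π hπ⟩

/-- Control of the normalisations: complex hyperbolic space, the unit ball with the potential
-log(1 - |z|^2), is complete Kaehler with Ric = -2(n+1) g and bottom of the spectrum n^2. -/
theorem ball_control (n : ℕ) (hn : 1 ≤ n) (B : Set (Fin n → ℂ))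
    (hB : B = {z | ∑ j, ‖z j‖ ^ 2 < 1}) (g : (Fin n → ℂ) → Matrix (Fin n) (Fin n) ℂ)
    (hg : ∀ z j k, g z j k =
      dz j (dzbar k fun w => ((-Real.log (1 - ∑ i, ‖w i‖ ^ 2) : ℝ) : ℂ)) z) :
    IsKahler B g ∧ IsCompleteMetric B g ∧ g 0 = 1 ∧
      (∀ z ∈ B, ∀ v, ricci g z v = -2 * ((n : ℝ) + 1) * normSq g z v) ∧
      lambda0 B g = (n : ℝ) ^ 2 :=
  Ball.ball hn B hB g hg

/-- The last clause of the main theorem excludes quotients: if a group S of homeomorphisms of the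
ball acts freely and properly discontinuously, and q identifies X with the space of orbits, then q is
a covering map. -/
theorem quotient_is_covered (n : ℕ) (X B : Set (Fin n → ℂ))
    (hB : B = {z | ∑ j, ‖z j‖ ^ 2 < 1}) (S : Set (B → B)) (one : (fun x => x) ∈ S)
    (mul : ∀ f ∈ S, ∀ f' ∈ S, (fun x => f (f' x)) ∈ S)
    (inv : ∀ f ∈ S, ∃ f' ∈ S, ∀ x, f' (f x) = x ∧ f (f' x) = x)
    (cont : ∀ f ∈ S, ∀ U, IsOpen U → IsOpen (f ⁻¹' U))
    (free : ∀ f ∈ S, ∀ x, f x = x → ∀ y, f y = y)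
    (disc : ∀ K, IsCompact K → ∃ (m : ℕ) (l : Fin m → B → B),
      ∀ f ∈ S, ∀ x ∈ K, f x ∈ K → ∃ i, f = l i)
    (q : B → X) (onto : ∀ y, ∃ x, q x = y) (quot : ∀ U, IsOpen U ↔ IsOpen (q ⁻¹' U))
    (fib : ∀ x x', q x = q x' ↔ ∃ f ∈ S, f x = x') : IsCoveringMap q := by
  have hO : IsOpen B := hB ▸ isOpen_lt (by fun_prop) continuous_const
  have := hO.locallyCompactSpace
  exact Ball.covering_of_group S one mul inv cont free disc q onto quot fib

end Pool.Agent.Results.MP_e5c6eb_gt.Counterexample
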